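import Pool.Agent.D0H64.MX.Stm
import Pool.Agent.TH365.J3099

/-!
# Project MX (helper64), module BLK: the subfield that belongs to the blocks of `C₂ ≀_X H`
-/

set_option autoImplicit false

namespace Pool.Agent.D0H63.MX

open Pool.Agent.D0H64.MX Pool.Agent.TH365.J3099 IntermediateField

section wr

variable {H X : Type} [Group H] [MulAction H X]

/-- the permutation `(x, b) ↦ (h x, f x b)` -/
def wrX (p : H × (X → Equiv.Perm Bool)) : Equiv.Perm (X × Bool) where
  toFun x := (p.1 • x.1, p.2 x.1 x.2)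
  invFun y := (p.1⁻¹ • y.1, (p.2 (p.1⁻¹ • y.1)).symm y.2)
  left_inv x := by simp
  right_inv y := by simp

theorem wrX_injective [FaithfulSMul H X] : Function.Injective (wrX (H := H) (X := X)) := by
  rintro ⟨h, f⟩ ⟨h', f'⟩ e
  have e1 : ∀ x : X × Bool, wrX (h, f) x = wrX (h', f') x := fun x => by rw [e]
  have h1 : h = h' := by
    apply FaithfulSMul.eq_of_smul_eq_smul (α := X)
    intro x
    have := congrArg Prod.fst (e1 (x, true))
    simpa [wrX] using this
  subst h1
  have h2 : f = f' := by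
    funext x
    ext b
    have := congrArg Prod.snd (e1 (x, b))
    simpa [wrX] using this
  rw [h2]

theorem range_wrX : Set.range (wrX (H := H) (X := X)) = Wr2X H X := by
  ext π
  constructor
  · rintro ⟨⟨h, f⟩, rfl⟩
    exact ⟨h, fun x => rfl⟩
  · rintro ⟨h, hh⟩
    have inj : ∀ x : X, Function.Injective (fun b : Bool => (π (x, b)).2) := by
      intro x b b' hb
      have : π (x, b) = π (x, b') := by
        apply Prod.ext
        · rw [hh, hh]
        · exact hb
      have := π.injective this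
      exact congrArg Prod.snd this
    refine ⟨(h, fun x => Equiv.ofBijective _ (Finite.injective_iff_bijective.1 (inj x))), ?_⟩
    ext1 x
    apply Prod.ext
    · simp [wrX, hh]
    · simp [wrX]

theorem ncard_Wr2X [Finite H] [Finite X] [FaithfulSMul H X] :
    (Wr2X H X).ncard = 2 ^ Nat.card X * Nat.card H := by
  classical
  have : Fintype H := Fintype.ofFinite H
  have : Fintype X := Fintype.ofFinite X
  rw [← range_wrX, ← Set.image_univ, Set.ncard_image_of_injective _ wrX_injective,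
    Set.ncard_univ, Nat.card_prod, Nat.card_fun, mul_comm]
  congr 2
  rw [Nat.card_eq_fintype_card, Fintype.card_perm]
  simp

end wr

theorem t_BLK : S_BLK := by
  intro K Ω _ _ _ _ _ H X _ _ _ _ _ L hL hw
  classical
  obtain ⟨e, he⟩ := hw
  have hXne : Nonempty X := ⟨(e L.val).1⟩
  have hpos : 0 < Nat.card X := Nat.card_pos
  have hfd : FiniteDimensional K L := FiniteDimensional.of_finrank_pos (by omega)
  have i1 : IsAlgClosed Ω := IsAlgClosure.isAlgClosed K
  have i2 : Normal K Ω := IsAlgClosure.normal K Ω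
  have i3 : Algebra.IsAlgebraic K Ω := IsAlgClosure.isAlgebraic
  have i4 : Algebra.IsSeparable K Ω := inferInstance
  have i5 : IsGalois K Ω := ⟨⟩
  have hact : ∀ σ : Ω ≃ₐ[K] Ω, ∃ h : H, ∀ φ : L →ₐ[K] Ω, (e (act L σ φ)).1 = h • (e φ).1 := by
    intro σ
    obtain ⟨π, hπ⟩ : ∃ π : Equiv.Perm (X × Bool), ∀ φ : L →ₐ[K] Ω, e (act L σ φ) = π (e φ) :=
      ⟨e.permCongr (act L σ), fun φ => by rw [Equiv.permCongr_apply, Equiv.symm_apply_apply]⟩
    obtain ⟨h, hh⟩ := (he π).2 ⟨σ, hπ⟩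
    exact ⟨h, fun φ => by rw [hπ, hh]⟩
  have huniq : ∀ h h' : H, (∀ φ : L →ₐ[K] Ω, h • (e φ).1 = h' • (e φ).1) → h = h' := by
    intro h h' heq
    apply FaithfulSMul.eq_of_smul_eq_smul (α := X)
    intro x
    have := heq (e.symm (x, true))
    rwa [Equiv.apply_symm_apply] at this
  choose hf hfs using hact
  let h : (Ω ≃ₐ[K] Ω) →* H :=
    { toFun := hf
      map_one' := huniq _ _ fun φ => by rw [← hfs, map_one, Equiv.Perm.one_apply, one_smul]
      map_mul' := fun σ τ => huniq _ _ fun φ => by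
        rw [← hfs, map_mul, Equiv.Perm.mul_apply, hfs, hfs, smul_smul] }
  have hh : ∀ (σ : Ω ≃ₐ[K] Ω) (φ : L →ₐ[K] Ω), (e (act L σ φ)).1 = h σ • (e φ).1 := hfs
  have hs : Function.Surjective h := by
    intro a
    obtain ⟨σ, hσ⟩ := (he (wrX (a, 1))).1 ⟨a, fun x => rfl⟩
    refine ⟨σ, huniq _ _ fun φ => ?_⟩
    rw [← hh, act_apply, hσ]
    rfl
  obtain ⟨x₀, hx₀⟩ : ∃ x₀, x₀ = (e L.val).1 := ⟨_, rfl⟩
  let St : Subgroup (Ω ≃ₐ[K] Ω) := (MulAction.stabilizer H x₀).comap h
  have hSt : ∀ σ, σ ∈ St ↔ h σ • x₀ = x₀ := fun σ => by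
    rw [Subgroup.mem_comap, MulAction.mem_stabilizer_iff]
  have hker : L.fixingSubgroup ≤ St := by
    intro σ hσ
    rw [hSt, hx₀, ← hh]
    have h1 : act L σ L.val = L.val := by
      ext x
      rw [act_apply_apply]
      rw [IntermediateField.mem_fixingSubgroup_iff] at hσ
      exact hσ _ x.2
    rw [h1]
  have hopen : IsOpen (St : Set (Ω ≃ₐ[K] Ω)) :=
    Subgroup.isOpen_mono hker L.fixingSubgroup_isOpen
  have hclosed : IsClosed (St : Set (Ω ≃ₐ[K] Ω)) := Subgroup.isClosed_of_isOpen _ hopen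
  obtain ⟨M, hMdef⟩ : ∃ M, M = fixedField St := ⟨_, rfl⟩
  have hM : M.fixingSubgroup = St := by
    rw [hMdef]
    exact InfiniteGalois.fixingSubgroup_fixedField ⟨St, hclosed⟩
  have hML : M ≤ L := by
    rw [← InfiniteGalois.fixedField_fixingSubgroup L, hMdef]
    intro x hx
    rw [mem_fixedField_iff] at hx ⊢
    exact fun σ hσ => hx σ (hker hσ)
  have hMfd : FiniteDimensional K M := by
    rw [← InfiniteGalois.isOpen_iff_finite, hM]
    exact hopen
  -- every embedding extends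
  have hext : ∀ (F : IntermediateField K Ω) (φ : F →ₐ[K] Ω), ∃ σ : Ω ≃ₐ[K] Ω, ∀ x : F, σ x = φ x := by
    intro F φ
    refine ⟨AlgEquiv.ofBijective (φ.liftNormal Ω) (Algebra.IsAlgebraic.algHom_bijective _), fun x => ?_⟩
    exact AlgHom.liftNormal_commutes φ Ω x
  have htr : ∀ x : X, ∃ σ : Ω ≃ₐ[K] Ω, h σ • x₀ = x := by
    intro x
    obtain ⟨σ, hσ⟩ := hext L (e.symm (x, true))
    refine ⟨σ, ?_⟩
    rw [hx₀, ← hh]
    have h1 : act L σ L.val = e.symm (x, true) := by
      ext y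
      rw [act_apply_apply]
      exact hσ y
    rw [h1, Equiv.apply_symm_apply]
  choose lift hlift using hext M
  have hkey : ∀ σ τ : Ω ≃ₐ[K] Ω, (∀ x : M, σ x = τ x) ↔ h σ • x₀ = h τ • x₀ := by
    intro σ τ
    have h1 : (∀ x : M, σ x = τ x) ↔ τ⁻¹ * σ ∈ M.fixingSubgroup := by
      rw [IntermediateField.mem_fixingSubgroup_iff]
      constructor
      · intro h2 x hx
        rw [AlgEquiv.mul_apply, h2 ⟨x, hx⟩]
        exact τ.symm_apply_apply x
      · intro h2 x
        have h3 := h2 x x.2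
        rw [AlgEquiv.mul_apply] at h3
        have h4 := congrArg τ h3
        rw [← h4]
        exact (τ.apply_symm_apply (σ x)).symm
    rw [h1, hM, hSt, map_mul, map_inv, mul_smul, inv_smul_eq_iff]
  let r : (M →ₐ[K] Ω) → X := fun φ => h (lift φ) • x₀
  have hr : ∀ (σ : Ω ≃ₐ[K] Ω) (φ : M →ₐ[K] Ω), (∀ x : M, σ x = φ x) → r φ = h σ • x₀ := by
    intro σ φ hσ
    refine (hkey (lift φ) σ).1 fun x => ?_
    rw [hlift, hσ]
  have hrinj : Function.Injective r := by
    intro φ ψ hφψ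
    ext x
    rw [← hlift φ x, ← hlift ψ x]
    exact (hkey (lift φ) (lift ψ)).2 hφψ x
  have hrsurj : Function.Surjective r := by
    intro x
    obtain ⟨σ, hσ⟩ := htr x
    refine ⟨σ.toAlgHom.comp M.val, ?_⟩
    rw [hr σ _ (fun x => rfl), hσ]
  let eM : (M →ₐ[K] Ω) ≃ X := Equiv.ofBijective r ⟨hrinj, hrsurj⟩
  have heM : ∀ φ, eM φ = r φ := fun φ => rfl
  have hequi : ∀ (σ : Ω ≃ₐ[K] Ω) (φ : M →ₐ[K] Ω), eM (σ.toAlgHom.comp φ) = h σ • eM φ := by
    intro σ φ
    rw [heM, heM, hr (σ * lift φ) _ (fun x => ?_), map_mul, mul_smul]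
    rw [AlgEquiv.mul_apply, hlift]
    rfl
  have hfr : Module.finrank K M = Nat.card X := by
    rw [← AlgHom.card K M Ω, ← Nat.card_eq_fintype_card]
    exact Nat.card_congr eM
  have h1 : imP L e = Wr2X H X := by
    ext π
    exact (he π).symm
  have h2 : imP M eM = Set.range (MulAction.toPermHom H X) := by
    ext π
    constructor
    · rintro ⟨σ, hσ⟩
      refine ⟨h σ, ?_⟩
      ext x
      obtain ⟨φ, rfl⟩ := eM.surjective x
      rw [MulAction.toPermHom_apply, MulAction.toPerm_apply, ← hequi, hσ]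
    · rintro ⟨a, rfl⟩
      obtain ⟨σ, rfl⟩ := hs a
      exact ⟨σ, fun φ => by rw [hequi]; rfl⟩
  have h3 : nd M = Nat.card H := by
    have hinj : Function.Injective (MulAction.toPermHom H X) := MulAction.toPerm_injective
    unfold nd
    rw [← ncard_imP M eM, h2, ← Set.image_univ, Set.ncard_image_of_injective _ hinj, Set.ncard_univ]
  refine ⟨M, ⟨hMfd, eM, fun a => ?_, fun σ => ⟨h σ, hequi σ⟩⟩, hML, hfd, by rw [hL, hfr], ?_⟩
  · obtain ⟨σ, rfl⟩ := hs a
    exact ⟨σ, hequi σ⟩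
  · rw [h3, hfr, ← ncard_Wr2X, ← h1]
    unfold nd
    rw [← ncard_imP L e]

end Pool.Agent.D0H63.MX
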