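import Pool.Agent.D0H64.MX.Stm
import Pool.Agent.TH111.J3097

/-!
# Project MX (helper64), module NOTF: Kummer theory over the normal closure of `M`
-/

set_option autoImplicit false

namespace Pool.Agent.D0H63.MX

open Pool.Agent.D0H64.MX Pool.Agent.TH111.J3097

theorem t_NOTF : S_NOTF := by
  intro K Ω _ _ _ _ _ M _ L hML α s hα hs hsM hL hne
  classical
  by_contra hcon
  push Not at hcon
  apply hne
  have hac : IsAlgClosed Ω := IsAlgClosure.isAlgClosed K
  have hnorm : Normal K Ω := IsAlgClosure.normal K Ω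
  have halg : Algebra.IsAlgebraic K Ω := IsAlgClosure.isAlgebraic
  have hc0 : CharZero K := inferInstance
  obtain ⟨N, hN⟩ : ∃ N, N = IntermediateField.normalClosure K M Ω := ⟨_, rfl⟩
  have hNfd : FiniteDimensional K N := by
    rw [hN]
    exact normalClosure.is_finiteDimensional K M Ω
  have halgN : Algebra.IsAlgebraic N Ω := Algebra.IsAlgebraic.tower_top (K := K) N
  have h2 : (2 : N) ≠ 0 := by
    have : CharZero N := charZero_of_injective_algebraMap (algebraMap K N).injective
    exact two_ne_zero
  have hφN : ∀ (φ : M →ₐ[K] Ω) (x : M), φ x ∈ N := fun φ x => by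
    rw [hN]
    exact AlgHom.fieldRange_le_normalClosure φ ⟨x, rfl⟩
  have hMN : M ≤ N := fun x hx => hφN M.val ⟨x, hx⟩
  have hex : ∀ φ : M →ₐ[K] Ω, ∃ t : Ω, t ^ 2 = algebraMap N Ω ⟨φ α, hφN φ α⟩ := fun φ =>
    IsAlgClosed.exists_pow_nat_eq _ two_pos
  choose η hη using hex
  have hη' : ∀ φ : M →ₐ[K] Ω, η φ ^ 2 = φ α := fun φ => hη φ
  have hnsq : ∀ S : Finset (M →ₐ[K] Ω), S.Nonempty → ¬ IsSquare (∏ φ ∈ S, (⟨φ α, hφN φ α⟩ : N)) := by
    rintro S hS ⟨r, hr⟩
    have h3 := hcon S hS (r : Ω) (hN ▸ r.2)
    apply h3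
    have h4 := congrArg (algebraMap N Ω) hr
    rw [map_prod, map_mul] at h4
    rw [sq]
    exact h4.symm
  have hdeg := finrank_mq' h2 hη hnsq
  have hcard : Fintype.card (M →ₐ[K] Ω) = Module.finrank K M := AlgHom.card K M Ω
  -- two square roots of the same element
  have hroot : ∀ (E : IntermediateField K Ω) (u v : Ω), u ^ 2 = v ^ 2 → v ∈ E → u ∈ E := by
    intro E u v h hv
    rcases sq_eq_sq_iff_eq_or_eq_neg.1 h with rfl | rfl
    · exact hv
    · exact neg_mem hv
  have hNL : N ≤ IntermediateField.normalClosure K L Ω := by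
    rw [hN, normalClosure_le_iff]
    intro φ
    rintro _ ⟨x, rfl⟩
    have h5 := AlgHom.liftNormal_commutes φ Ω x
    have h6 : ((φ.liftNormal Ω).comp L.val) ⟨x, hML x.2⟩ ∈ IntermediateField.normalClosure K L Ω :=
      AlgHom.fieldRange_le_normalClosure _ ⟨_, rfl⟩
    have h7 : ((φ.liftNormal Ω).comp L.val) ⟨x, hML x.2⟩ = φ x := h5
    rw [h7] at h6
    exact h6
  have hNC : (IntermediateField.adjoin N (Set.range η)).restrictScalars K =
      IntermediateField.normalClosure K L Ω := by
    apply le_antisymm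
    · have h3 : IntermediateField.adjoin N (Set.range η) ≤
          IntermediateField.extendScalars hNL := by
        rw [IntermediateField.adjoin_le_iff]
        rintro _ ⟨φ, rfl⟩
        show η φ ∈ IntermediateField.normalClosure K L Ω
        have hsL : s ∈ L := by
          rw [hL]
          exact (le_sup_right : IntermediateField.adjoin K {s} ≤ _)
            (IntermediateField.mem_adjoin_simple_self K s)
        have h6 : ((φ.liftNormal Ω).comp L.val) ⟨s, hsL⟩ ∈ IntermediateField.normalClosure K L Ω :=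
          AlgHom.fieldRange_le_normalClosure _ ⟨_, rfl⟩
        apply hroot _ (η φ) _ _ h6
        rw [hη', ← map_pow]
        have h7 := AlgHom.liftNormal_commutes φ Ω α
        have h8 : ((φ.liftNormal Ω).comp L.val) ((⟨s, hsL⟩ : L) ^ 2) = (φ.liftNormal Ω) (s ^ 2) := rfl
        rw [h8, hs]
        exact h7.symm
      exact h3
    · rw [normalClosure_le_iff]
      intro f
      obtain ⟨σ, hσ⟩ : ∃ σ : Ω →ₐ[K] Ω, σ = f.liftNormal Ω := ⟨_, rfl⟩
      have hσf : ∀ x : L, σ (x : Ω) = f x := fun x => by
        rw [hσ]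
        exact AlgHom.liftNormal_commutes f Ω x
      have h9 : L ≤ ((IntermediateField.adjoin N (Set.range η)).restrictScalars K).comap σ := by
        rw [hL]
        apply sup_le
        · intro m hm
          show σ m ∈ IntermediateField.adjoin N (Set.range η)
          have h10 : σ m ∈ N := hφN (σ.comp M.val) ⟨m, hm⟩
          exact IntermediateField.algebraMap_mem (IntermediateField.adjoin N (Set.range η)) (⟨σ m, h10⟩ : N)
        · rw [IntermediateField.adjoin_simple_le_iff]
          show σ s ∈ (IntermediateField.adjoin N (Set.range η)).restrictScalars K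
          apply hroot _ (σ s) (η (σ.comp M.val))
          · rw [hη', ← map_pow, hs]
            rfl
          · exact IntermediateField.subset_adjoin N _ ⟨_, rfl⟩
      rintro _ ⟨x, rfl⟩
      have h11 := h9 x.2
      have h12 : σ (x : Ω) ∈ (IntermediateField.adjoin N (Set.range η)).restrictScalars K := h11
      rw [hσf] at h12
      exact h12
  unfold nd
  rw [← hNC, ← hN, ← hcard, ← hdeg]
  have h7 := Module.finrank_mul_finrank K N (IntermediateField.adjoin N (Set.range η))
  rw [mul_comm, h7]
  rfl

end Pool.Agent.D0H63.MX
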